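import Pool.Agent.L7h18.BP.Stm
import Pool.Agent.L7h76.BW.Msq

/-! Project BP (helper18), part FRX: all frequencies which are not near the line one, in mean square. -/

set_option autoImplicit false

namespace Pool.Agent.L7h76.BP

open Finset Filter MeasureTheory
open Pool.Agent.H376R2.MR (ch DP FK w)
open Pool.Agent.Q240.KS (cf sp ty ed DY zY pic)
open Pool.Agent.L7h88.BW
open Pool.Agent.L7h76.BW (poly_exp PX_one mem_FK mem_prm rhs_le prim_ne prim_P PX_zero Kc_le Kc1_le Fc_le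
  Fc_pos fk_le)
open Pool.Agent.L7h18.BP

/-- one factor is bounded on a set of frequencies, the others in mean square -/
lemma core {C : ℕ} (hM : ∀ (F K z : ℕ) (tt : Fin 10 → Fin 3) (d : Fin 10 → ℕ), 1 ≤ F → 1 ≤ K →
    ∑ f ∈ Icc 1 F, ∑ χ ∈ prm f (fun _ => True), ∑ k ∈ FK K, ‖∏ i, PX χ z (tt i) (d i) k‖ ^ 2 ≤
      C * (1 + ∑ i, (d i : ℝ)) ^ C * (1 + (F : ℝ) ^ 2 * K * Real.exp (-((∑ i, (d i : ℝ)) / 20))))
    (F K z : ℕ) (hF : 1 ≤ F) (hK : 1 ≤ K) (tt : Fin 10 → Fin 3) (d : Fin 10 → ℕ) (j : Fin 10)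
    (S : ∀ f : ℕ, DirichletCharacter ℂ f → Finset ℤ) (hS : ∀ f χ, S f χ ⊆ FK K) (G : ℝ) (hG : 0 ≤ G)
    (hb : ∀ f ∈ Icc 2 F, ∀ χ ∈ prm f (fun _ => True), ∀ k ∈ S f χ, ‖PX χ z (tt j) (d j) k‖ ^ 2 ≤ G) :
    ∑ f ∈ Icc 2 F, ∑ χ ∈ prm f (fun _ => True), ∑ k ∈ S f χ, ‖∏ i, PX χ z (tt i) (d i) k‖ ^ 2 ≤
      G * (C * (1 + ∑ i, (d i : ℝ)) ^ C *
        (1 + (F : ℝ) ^ 2 * K * Real.exp (-((∑ i, (d i : ℝ) - d j) / 20)))) := by
  classical
  set tt' : Fin 10 → Fin 3 := Function.update tt j 1 with htt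
  set d' : Fin 10 → ℕ := Function.update d j 0 with hd'
  have hsum : ∑ i, (d' i : ℝ) = ∑ i, (d i : ℝ) - d j := by
    rw [← add_sum_erase univ (fun i => (d' i : ℝ)) (mem_univ j),
      ← add_sum_erase univ (fun i => (d i : ℝ)) (mem_univ j)]
    have e : ∑ x ∈ univ.erase j, (d' x : ℝ) = ∑ x ∈ univ.erase j, (d x : ℝ) := by
      apply sum_congr rfl
      intro x hx
      rw [hd', Function.update_of_ne (ne_of_mem_erase hx)]
    rw [e, hd', Function.update_self]
    push_cast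
    ring
  have hprod : ∀ (f : ℕ) (χ : DirichletCharacter ℂ f) (k : ℤ), ∏ i, PX χ z (tt i) (d i) k =
      PX χ z (tt j) (d j) k * ∏ i, PX χ z (tt' i) (d' i) k := by
    intro f χ k
    rw [← mul_prod_erase univ (fun i => PX χ z (tt i) (d i) k) (mem_univ j),
      ← mul_prod_erase univ (fun i => PX χ z (tt' i) (d' i) k) (mem_univ j)]
    have e : ∏ x ∈ univ.erase j, PX χ z (tt' x) (d' x) k = ∏ x ∈ univ.erase j, PX χ z (tt x) (d x) k := by
      apply prod_congr rfl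
      intro x hx
      rw [htt, hd', Function.update_of_ne (ne_of_mem_erase hx), Function.update_of_ne (ne_of_mem_erase hx)]
    rw [e, htt, hd', Function.update_self, Function.update_self, PX_one, one_mul]
  have h1 : ∑ f ∈ Icc 2 F, ∑ χ ∈ prm f (fun _ => True), ∑ k ∈ S f χ, ‖∏ i, PX χ z (tt i) (d i) k‖ ^ 2 ≤
      G * ∑ f ∈ Icc 1 F, ∑ χ ∈ prm f (fun _ => True), ∑ k ∈ FK K, ‖∏ i, PX χ z (tt' i) (d' i) k‖ ^ 2 := by
    have step : ∑ f ∈ Icc 2 F, ∑ χ ∈ prm f (fun _ => True), ∑ k ∈ S f χ, ‖∏ i, PX χ z (tt i) (d i) k‖ ^ 2 ≤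
        ∑ f ∈ Icc 2 F, ∑ χ ∈ prm f (fun _ => True), ∑ k ∈ S f χ, G * ‖∏ i, PX χ z (tt' i) (d' i) k‖ ^ 2 := by
      refine sum_le_sum fun f hf => sum_le_sum fun χ hχ => sum_le_sum fun k hk => ?_
      rw [hprod f χ k, norm_mul, mul_pow]
      exact mul_le_mul_of_nonneg_right (hb f hf χ hχ k hk) (by positivity)
    refine step.trans ?_
    rw [mul_sum]
    have sub2 : Icc 2 F ⊆ Icc 1 F := Icc_subset_Icc_left (by norm_num)
    refine (sum_le_sum fun f _ => ?_).trans (sum_le_sum_of_subset_of_nonneg sub2 fun f _ _ => ?_)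
    · rw [mul_sum]
      refine sum_le_sum fun χ _ => ?_
      rw [mul_sum]
      exact sum_le_sum_of_subset_of_nonneg (hS f χ) fun k _ _ => by positivity
    · exact mul_nonneg hG (sum_nonneg fun χ _ => sum_nonneg fun k _ => by positivity)
  refine h1.trans (mul_le_mul_of_nonneg_left ?_ hG)
  refine (hM F K z tt' d' hF hK).trans ?_
  rw [hsum]
  have hdj : (0 : ℝ) ≤ d j := Nat.cast_nonneg _
  have hle : 0 ≤ 1 + (∑ i, (d i : ℝ) - d j) := by
    rw [← hsum]
    positivity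
  apply mul_le_mul_of_nonneg_right _ (by positivity)
  apply mul_le_mul_of_nonneg_left _ (by positivity)
  apply pow_le_pow_left₀ hle
  linarith

/-- a long factor: everything is small -/
lemma long {C : ℕ} (hM : ∀ (F K z : ℕ) (tt : Fin 10 → Fin 3) (d : Fin 10 → ℕ), 1 ≤ F → 1 ≤ K →
    ∑ f ∈ Icc 1 F, ∑ χ ∈ prm f (fun _ => True), ∑ k ∈ FK K, ‖∏ i, PX χ z (tt i) (d i) k‖ ^ 2 ≤
      C * (1 + ∑ i, (d i : ℝ)) ^ C * (1 + (F : ℝ) ^ 2 * K * Real.exp (-((∑ i, (d i : ℝ)) / 20))))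
    {Ca Cb : ℝ} (hCa : 1 ≤ Ca) (hCb : 1 ≤ Cb)
    (hA : ∀ (q : ℕ) (_ : NeZero q) (χ : DirichletCharacter ℂ q) (z : ℕ) (t : Fin 3)
      (d : ℕ) (k : ℤ), χ ≠ 1 → t ≠ 0 →
      ‖PX χ z t d k‖ ≤ Ca * q * (1 + |(k : ℝ)|) * (1 + d) * Real.exp (-((d : ℝ) / 20)))
    (hB : ∀ (q : ℕ) (_ : NeZero q) (χ : DirichletCharacter ℂ q) (z : ℕ) (t : Fin 3)
      (d : ℕ) (k : ℤ), t ≠ 0 → k ≠ 0 → ‖PX χ z t d k‖ ≤ Cb * q * (1 + (d : ℝ)) ^ 2 *
        (|(k : ℝ)| ^ (1 / 2 : ℝ) * Real.exp (-((d : ℝ) / 20)) + |(k : ℝ)| ^ (-(1 / 2) : ℝ)))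
    (Y : ℝ) (hy10 : 10 ≤ Y) (d : Fin 10 → ℕ) (hd : d ∈ DY Y) (j : Fin 10)
    (hcase : 0.45 * Y < (d j : ℝ) / 20) :
    ∑ f ∈ Icc 2 (Fc Y), ∑ χ ∈ prm f (fun _ => True), ∑ k ∈ FK (Kc Y + 1),
      ‖∏ i, PX χ (zY Y) (ty i) (d i) k‖ ^ 2 ≤
      7 * ((82 * Ca) ^ 2 + (3362 * Cb) ^ 2) * (C * 41 ^ C) * Y ^ (C + 4) * Real.exp (-(0.045 * Y)) := by
  have hY0 : 0 < Y := by linarith
  have hY1 : 1 ≤ Y := by linarith
  set M : ℝ := C * 41 ^ C with hMd
  have hM0 : 0 ≤ M := by positivity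
  set B1 : ℝ := 7 * (82 * Ca) ^ 2 * M * Y ^ (C + 4) * Real.exp (-(0.045 * Y)) with hB1d
  set B2 : ℝ := 7 * (3362 * Cb) ^ 2 * M * Y ^ (C + 4) * Real.exp (-(0.045 * Y)) with hB2d
  have hgoal : 7 * ((82 * Ca) ^ 2 + (3362 * Cb) ^ 2) * M * Y ^ (C + 4) * Real.exp (-(0.045 * Y)) = B1 + B2 := by
    rw [hB1d, hB2d]
    ring
  have hB1 : (82 * Ca) ^ 2 * M * Y ^ (C + 2) * (7 * Real.exp (-(0.045 * Y))) ≤ B1 := by
    rw [hB1d]
    have h := pow_le_pow_right₀ hY1 (show C + 2 ≤ C + 4 by omega)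
    calc (82 * Ca) ^ 2 * M * Y ^ (C + 2) * (7 * Real.exp (-(0.045 * Y)))
        ≤ (82 * Ca) ^ 2 * M * Y ^ (C + 4) * (7 * Real.exp (-(0.045 * Y))) := by gcongr
      _ = _ := by ring
  have hB2 : (3362 * Cb) ^ 2 * M * Y ^ (C + 4) * (7 * Real.exp (-(0.045 * Y))) ≤ B2 := by
    rw [hB2d]
    apply le_of_eq
    ring
  have hB20 : 0 ≤ B2 := by positivity
  have hB12 : B1 ≤ B1 + B2 := by linarith
  rw [hgoal]
  have hs := abs_le.mp (Pool.Agent.Q95.KS.DY_sum hd)
  set s : ℝ := ∑ i, (d i : ℝ) with hsd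
  set a : ℝ := (d j : ℝ) / 20 with had
  have hdj : (d j : ℝ) ≤ s := single_le_sum (f := fun i => (d i : ℝ)) (fun i _ => Nat.cast_nonneg _) (mem_univ j)
  have ha2 : a ≤ Y + 1 := by
    rw [had]
    linarith [hs.2]
  have hd41 : 1 + (d j : ℝ) ≤ 41 * Y := by linarith [hs.2]
  have hs41 : 1 + s ≤ 41 * Y := by linarith [hs.2]
  have hs0 : 0 ≤ s := sum_nonneg fun i _ => Nat.cast_nonneg _
  have hFp := Fc_pos hY0.le
  -- the factor of the others
  have hfac : ∀ (K : ℕ) (κ : ℝ), (K : ℝ) ≤ 2 * Real.exp (κ * Y) →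
      C * (1 + s) ^ C * (1 + (Fc Y : ℝ) ^ 2 * K * Real.exp (-((s - d j) / 20))) ≤
        M * Y ^ C * (1 + 6 * Real.exp ((κ - 0.98) * Y + a)) := by
    intro K κ hK
    have h1 := rhs_le (a := a) (s := s) (Fc_le Y) hK (by linarith [hs.1])
    have e : (s - d j) / 20 = s / 20 - a := by rw [had]; ring
    rw [e]
    have h2 : (C : ℝ) * (1 + s) ^ C ≤ M * Y ^ C := by
      rw [hMd, mul_assoc, ← mul_pow]
      apply mul_le_mul_of_nonneg_left _ (by positivity)
      exact pow_le_pow_left₀ (by positivity) hs41 C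
    apply mul_le_mul h2 _ (by positivity) (by positivity)
    linarith
  -- the first bound of a smooth factor
  have hsma : ty j ≠ 0 → ∀ t : ℝ, 0 ≤ t → ∀ f ∈ Icc 2 (Fc Y), ∀ χ ∈ prm f (fun _ => True), ∀ k : ℤ,
      |(k : ℝ)| ≤ Real.exp (t * Y) → ‖PX χ (zY Y) (ty j) (d j) k‖ ^ 2 ≤
        (82 * Ca) ^ 2 * Y ^ 2 * Real.exp (2 * ((0.01 + t) * Y - a)) := by
    intro htj t ht f hf χ hχ k hk
    rw [mem_Icc] at hf
    have hne : NeZero f := ⟨by omega⟩
    have h1 := hA f hne χ (zY Y) (ty j) (d j) k (prim_ne hf.1 hχ) htj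
    have hf2 : (f : ℝ) ≤ Real.exp (Y / 100) := by
      have : (f : ℝ) ≤ Fc Y := by exact_mod_cast hf.2
      exact this.trans (Fc_le Y)
    have ht1 : 1 ≤ Real.exp (t * Y) := Real.one_le_exp (by positivity)
    have h2 : ‖PX χ (zY Y) (ty j) (d j) k‖ ≤ 82 * Ca * Y * Real.exp ((0.01 + t) * Y - a) := by
      refine h1.trans ?_
      calc Ca * f * (1 + |(k : ℝ)|) * (1 + d j) * Real.exp (-((d j : ℝ) / 20))
          ≤ Ca * Real.exp (Y / 100) * (2 * Real.exp (t * Y)) * (41 * Y) * Real.exp (-((d j : ℝ) / 20)) := by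
            apply mul_le_mul_of_nonneg_right _ (Real.exp_pos _).le
            apply mul_le_mul _ hd41 (by positivity) (by positivity)
            apply mul_le_mul _ (by linarith) (by positivity) (by positivity)
            exact mul_le_mul_of_nonneg_left hf2 (by linarith)
        _ = 82 * Ca * Y * Real.exp ((0.01 + t) * Y - a) := by
            have e : Real.exp ((0.01 + t) * Y - a) =
                Real.exp (Y / 100) * Real.exp (t * Y) * Real.exp (-((d j : ℝ) / 20)) := by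
              rw [← Real.exp_add, ← Real.exp_add]
              congr 1
              rw [had]
              ring
            rw [e]
            ring
    calc ‖PX χ (zY Y) (ty j) (d j) k‖ ^ 2 ≤ (82 * Ca * Y * Real.exp ((0.01 + t) * Y - a)) ^ 2 :=
          pow_le_pow_left₀ (norm_nonneg _) h2 2
      _ = (82 * Ca) ^ 2 * Y ^ 2 * Real.exp (2 * ((0.01 + t) * Y - a)) := by
          rw [mul_pow, mul_pow, ← Real.exp_nat_mul]
          push_cast
          ring
  by_cases htj : ty j = 0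
  · -- case (b)
    have h0 : ∑ f ∈ Icc 2 (Fc Y), ∑ χ ∈ prm f (fun _ => True), ∑ k ∈ FK (Kc Y + 1),
        ‖∏ i, PX χ (zY Y) (ty i) (d i) k‖ ^ 2 = 0 := by
      refine sum_eq_zero fun f _ => sum_eq_zero fun χ _ => sum_eq_zero fun k _ => ?_
      have e : ∏ i, PX χ (zY Y) (ty i) (d i) k = 0 := by
        apply prod_eq_zero (mem_univ j)
        rw [htj]
        exact PX_zero (by linarith) χ hcase k
      rw [e, norm_zero]
      norm_num
    rw [h0]
    positivity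
  · by_cases h6 : 0.6 * Y < a
    · -- case (c1)
      have h1 := core hM (Fc Y) (Kc Y + 1) (zY Y) hFp (by omega) ty d j (fun _ _ => FK (Kc Y + 1)) (fun _ _ => Subset.refl _)
        _ (by positivity)
        (fun f hf χ hχ k hk => hsma htj 0.505 (by norm_num) f hf χ hχ k ((fk_le hk).trans (Kc_le Y)))
      refine h1.trans ?_
      have h2 := hfac (Kc Y + 1) 0.505 (Kc1_le hY0.le)
      refine (mul_le_mul_of_nonneg_left h2 (by positivity)).trans ?_
      have e1 : Real.exp (2 * ((0.01 + 0.505) * Y - a)) ≤ Real.exp (-(0.045 * Y)) :=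
        Real.exp_le_exp.mpr (by linarith)
      have e2 : Real.exp (2 * ((0.01 + 0.505) * Y - a)) * Real.exp ((0.505 - 0.98) * Y + a) ≤
          Real.exp (-(0.045 * Y)) := by
        rw [← Real.exp_add]
        exact Real.exp_le_exp.mpr (by linarith)
      have h3 : (82 * Ca) ^ 2 * Y ^ 2 * Real.exp (2 * ((0.01 + 0.505) * Y - a)) *
          (M * Y ^ C * (1 + 6 * Real.exp ((0.505 - 0.98) * Y + a))) =
          (82 * Ca) ^ 2 * M * Y ^ (C + 2) * (Real.exp (2 * ((0.01 + 0.505) * Y - a)) +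
            6 * (Real.exp (2 * ((0.01 + 0.505) * Y - a)) * Real.exp ((0.505 - 0.98) * Y + a))) := by
        rw [pow_add]
        ring
      rw [h3]
      have h4 : (82 * Ca) ^ 2 * M * Y ^ (C + 2) * (Real.exp (2 * ((0.01 + 0.505) * Y - a)) +
            6 * (Real.exp (2 * ((0.01 + 0.505) * Y - a)) * Real.exp ((0.505 - 0.98) * Y + a))) ≤
          (82 * Ca) ^ 2 * M * Y ^ (C + 2) * (7 * Real.exp (-(0.045 * Y))) := by
        apply mul_le_mul_of_nonneg_left _ (by positivity)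
        linarith
      exact (h4.trans hB1).trans hB12
    · -- cases (c2), (c3)
      push Not at h6
      set T : ℝ := Real.exp (0.2 * Y) with hT
      have hsplit : ∑ f ∈ Icc 2 (Fc Y), ∑ χ ∈ prm f (fun _ => True), ∑ k ∈ FK (Kc Y + 1),
          ‖∏ i, PX χ (zY Y) (ty i) (d i) k‖ ^ 2 =
          ∑ f ∈ Icc 2 (Fc Y), ∑ χ ∈ prm f (fun _ => True),
            ∑ k ∈ (FK (Kc Y + 1)).filter (fun k : ℤ => |(k : ℝ)| ≤ T),
              ‖∏ i, PX χ (zY Y) (ty i) (d i) k‖ ^ 2 +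
          ∑ f ∈ Icc 2 (Fc Y), ∑ χ ∈ prm f (fun _ => True),
            ∑ k ∈ (FK (Kc Y + 1)).filter (fun k : ℤ => ¬ |(k : ℝ)| ≤ T),
              ‖∏ i, PX χ (zY Y) (ty i) (d i) k‖ ^ 2 := by
        rw [← sum_add_distrib]
        refine sum_congr rfl fun f _ => ?_
        rw [← sum_add_distrib]
        refine sum_congr rfl fun χ _ => ?_
        rw [sum_filter_add_sum_filter_not]
      rw [hsplit]
      have p1 : ∑ f ∈ Icc 2 (Fc Y), ∑ χ ∈ prm f (fun _ => True),
            ∑ k ∈ (FK (Kc Y + 1)).filter (fun k : ℤ => |(k : ℝ)| ≤ T),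
              ‖∏ i, PX χ (zY Y) (ty i) (d i) k‖ ^ 2 ≤ B1 := by
        have hT1 : 1 ≤ T := Real.one_le_exp (by positivity)
        have h1 := core hM (Fc Y) (⌊T⌋₊ + 1) (zY Y) hFp (by omega) ty d j
          (fun _ _ => (FK (Kc Y + 1)).filter (fun k : ℤ => |(k : ℝ)| ≤ T)) (by
            intro _ _ k hk
            rw [mem_filter] at hk
            rw [mem_FK]
            have h9 : ((k.natAbs : ℕ) : ℝ) ≤ T := by
              rw [Nat.cast_natAbs, Int.cast_abs]
              exact hk.2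
            have h10 := Nat.le_floor h9
            have h11 : |k| = (k.natAbs : ℤ) := Int.abs_eq_natAbs k
            rw [h11]
            push_cast
            omega)
          _ (by positivity)
          (fun f hf χ hχ k hk => hsma htj 0.2 (by norm_num) f hf χ hχ k (mem_filter.1 hk).2)
        refine h1.trans ?_
        have h2 := hfac (⌊T⌋₊ + 1) 0.2 (by
          have := Nat.floor_le (show 0 ≤ T by positivity)
          push_cast
          rw [← hT]
          linarith)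
        refine (mul_le_mul_of_nonneg_left h2 (by positivity)).trans ?_
        have e1 : Real.exp (2 * ((0.01 + 0.2) * Y - a)) ≤ Real.exp (-(0.045 * Y)) :=
          Real.exp_le_exp.mpr (by linarith)
        have e2 : Real.exp (2 * ((0.01 + 0.2) * Y - a)) * Real.exp ((0.2 - 0.98) * Y + a) ≤
            Real.exp (-(0.045 * Y)) := by
          rw [← Real.exp_add]
          exact Real.exp_le_exp.mpr (by linarith)
        have h3 : (82 * Ca) ^ 2 * Y ^ 2 * Real.exp (2 * ((0.01 + 0.2) * Y - a)) *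
            (M * Y ^ C * (1 + 6 * Real.exp ((0.2 - 0.98) * Y + a))) =
            (82 * Ca) ^ 2 * M * Y ^ (C + 2) * (Real.exp (2 * ((0.01 + 0.2) * Y - a)) +
              6 * (Real.exp (2 * ((0.01 + 0.2) * Y - a)) * Real.exp ((0.2 - 0.98) * Y + a))) := by
          rw [pow_add]
          ring
        rw [h3]
        have h4 : (82 * Ca) ^ 2 * M * Y ^ (C + 2) * (Real.exp (2 * ((0.01 + 0.2) * Y - a)) +
              6 * (Real.exp (2 * ((0.01 + 0.2) * Y - a)) * Real.exp ((0.2 - 0.98) * Y + a))) ≤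
            (82 * Ca) ^ 2 * M * Y ^ (C + 2) * (7 * Real.exp (-(0.045 * Y))) := by
          apply mul_le_mul_of_nonneg_left _ (by positivity)
          linarith
        exact h4.trans hB1
      have p2 : ∑ f ∈ Icc 2 (Fc Y), ∑ χ ∈ prm f (fun _ => True),
            ∑ k ∈ (FK (Kc Y + 1)).filter (fun k : ℤ => ¬ |(k : ℝ)| ≤ T),
              ‖∏ i, PX χ (zY Y) (ty i) (d i) k‖ ^ 2 ≤ B2 := by
        have h1 := core hM (Fc Y) (Kc Y + 1) (zY Y) hFp (by omega) ty d j
          (fun _ _ => (FK (Kc Y + 1)).filter (fun k : ℤ => ¬ |(k : ℝ)| ≤ T)) (fun _ _ => filter_subset _ _)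
          ((3362 * Cb) ^ 2 * Y ^ 4 * Real.exp (-(0.18 * Y))) (by positivity) (by
            intro f hf χ hχ k hk
            rw [mem_filter] at hk
            obtain ⟨hk1, hk2⟩ := hk
            push Not at hk2
            rw [mem_Icc] at hf
            have hne : NeZero f := ⟨by omega⟩
            have hTp : 0 < T := Real.exp_pos _
            have hk0 : k ≠ 0 := by
              rintro rfl
              rw [Int.cast_zero, abs_zero] at hk2
              linarith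
            have h1 := hB f hne χ (zY Y) (ty j) (d j) k htj hk0
            have hf2 : (f : ℝ) ≤ Real.exp (Y / 100) := by
              have : (f : ℝ) ≤ Fc Y := by exact_mod_cast hf.2
              exact this.trans (Fc_le Y)
            have hk3 : |(k : ℝ)| ≤ Real.exp (0.505 * Y) := (fk_le hk1).trans (Kc_le Y)
            have q1 : |(k : ℝ)| ^ (1 / 2 : ℝ) ≤ Real.exp (0.2525 * Y) := by
              calc |(k : ℝ)| ^ (1 / 2 : ℝ) ≤ (Real.exp (0.505 * Y)) ^ (1 / 2 : ℝ) :=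
                    Real.rpow_le_rpow (abs_nonneg _) hk3 (by norm_num)
                _ = Real.exp (0.2525 * Y) := by
                    rw [← Real.exp_mul]
                    congr 1
                    ring
            have q2 : |(k : ℝ)| ^ (-(1 / 2) : ℝ) ≤ Real.exp (-(0.1 * Y)) := by
              calc |(k : ℝ)| ^ (-(1 / 2) : ℝ) ≤ T ^ (-(1 / 2) : ℝ) :=
                    Real.rpow_le_rpow_of_nonpos hTp hk2.le (by norm_num)
                _ = Real.exp (-(0.1 * Y)) := by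
                    rw [hT, ← Real.exp_mul]
                    congr 1
                    ring
            have q3 : |(k : ℝ)| ^ (1 / 2 : ℝ) * Real.exp (-((d j : ℝ) / 20)) +
                |(k : ℝ)| ^ (-(1 / 2) : ℝ) ≤ 2 * Real.exp (-(0.1 * Y)) := by
              have q4 : |(k : ℝ)| ^ (1 / 2 : ℝ) * Real.exp (-((d j : ℝ) / 20)) ≤ Real.exp (-(0.1 * Y)) := by
                calc |(k : ℝ)| ^ (1 / 2 : ℝ) * Real.exp (-((d j : ℝ) / 20))
                    ≤ Real.exp (0.2525 * Y) * Real.exp (-((d j : ℝ) / 20)) :=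
                      mul_le_mul_of_nonneg_right q1 (Real.exp_pos _).le
                  _ ≤ Real.exp (-(0.1 * Y)) := by
                      rw [← Real.exp_add]
                      apply Real.exp_le_exp.mpr
                      have : (d j : ℝ) / 20 = a := rfl
                      rw [this]
                      linarith
              linarith
            have h2 : ‖PX χ (zY Y) (ty j) (d j) k‖ ≤ 3362 * Cb * Y ^ 2 * Real.exp (-(0.09 * Y)) := by
              refine h1.trans ?_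
              calc Cb * f * (1 + (d j : ℝ)) ^ 2 * (|(k : ℝ)| ^ (1 / 2 : ℝ) * Real.exp (-((d j : ℝ) / 20)) +
                    |(k : ℝ)| ^ (-(1 / 2) : ℝ))
                  ≤ Cb * Real.exp (Y / 100) * (41 * Y) ^ 2 * (2 * Real.exp (-(0.1 * Y))) := by
                    apply mul_le_mul _ q3 (by positivity) (by positivity)
                    apply mul_le_mul _ _ (by positivity) (by positivity)
                    · exact mul_le_mul_of_nonneg_left hf2 (by linarith)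
                    · exact pow_le_pow_left₀ (by positivity) hd41 2
                _ = 3362 * Cb * Y ^ 2 * Real.exp (-(0.09 * Y)) := by
                    have e : Real.exp (-(0.09 * Y)) = Real.exp (Y / 100) * Real.exp (-(0.1 * Y)) := by
                      rw [← Real.exp_add]
                      congr 1
                      ring
                    rw [e]
                    ring
            calc ‖PX χ (zY Y) (ty j) (d j) k‖ ^ 2 ≤ (3362 * Cb * Y ^ 2 * Real.exp (-(0.09 * Y))) ^ 2 :=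
                  pow_le_pow_left₀ (norm_nonneg _) h2 2
              _ = (3362 * Cb) ^ 2 * Y ^ 4 * Real.exp (-(0.18 * Y)) := by
                  rw [mul_pow, mul_pow, ← Real.exp_nat_mul, ← pow_mul]
                  congr 2
                  push_cast
                  ring)
        refine h1.trans ?_
        have h2 := hfac (Kc Y + 1) 0.505 (Kc1_le hY0.le)
        refine (mul_le_mul_of_nonneg_left h2 (by positivity)).trans ?_
        have e1 : Real.exp (-(0.18 * Y)) ≤ Real.exp (-(0.045 * Y)) :=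
          Real.exp_le_exp.mpr (by linarith)
        have e2 : Real.exp (-(0.18 * Y)) * Real.exp ((0.505 - 0.98) * Y + a) ≤
            Real.exp (-(0.045 * Y)) := by
          rw [← Real.exp_add]
          exact Real.exp_le_exp.mpr (by linarith)
        have h3 : (3362 * Cb) ^ 2 * Y ^ 4 * Real.exp (-(0.18 * Y)) *
            (M * Y ^ C * (1 + 6 * Real.exp ((0.505 - 0.98) * Y + a))) =
            (3362 * Cb) ^ 2 * M * Y ^ (C + 4) * (Real.exp (-(0.18 * Y)) +
              6 * (Real.exp (-(0.18 * Y)) * Real.exp ((0.505 - 0.98) * Y + a))) := by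
          rw [pow_add]
          ring
        rw [h3]
        have h4 : (3362 * Cb) ^ 2 * M * Y ^ (C + 4) * (Real.exp (-(0.18 * Y)) +
              6 * (Real.exp (-(0.18 * Y)) * Real.exp ((0.505 - 0.98) * Y + a))) ≤
            (3362 * Cb) ^ 2 * M * Y ^ (C + 4) * (7 * Real.exp (-(0.045 * Y))) := by
          apply mul_le_mul_of_nonneg_left _ (by positivity)
          linarith
        exact h4.trans hB2
      linarith

/-- no long factor, one small factor -/
lemma short {C : ℕ} (hM : ∀ (F K z : ℕ) (tt : Fin 10 → Fin 3) (d : Fin 10 → ℕ), 1 ≤ F → 1 ≤ K →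
    ∑ f ∈ Icc 1 F, ∑ χ ∈ prm f (fun _ => True), ∑ k ∈ FK K, ‖∏ i, PX χ z (tt i) (d i) k‖ ^ 2 ≤
      C * (1 + ∑ i, (d i : ℝ)) ^ C * (1 + (F : ℝ) ^ 2 * K * Real.exp (-((∑ i, (d i : ℝ)) / 20))))
    (Y ε : ℝ) (hy10 : 10 ≤ Y) (d : Fin 10 → ℕ) (hd : d ∈ DY Y) (hcase : ∀ i, (d i : ℝ) / 20 ≤ 0.45 * Y) :
    ∑ f ∈ Icc 2 (Fc Y), ∑ χ ∈ prm f (fun _ => True), ∑ k ∈ FK (Kc Y + 1),
      ‖(open Classical in if NR ε Y d χ k then 0 else ∏ i, PX χ (zY Y) (ty i) (d i) k)‖ ^ 2 ≤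
      70 * (C * 41 ^ C) * Y ^ C * Real.exp (-(2 * ε * Y)) := by
  classical
  have hY0 : 0 < Y := by linarith
  have hs := abs_le.mp (Pool.Agent.Q95.KS.DY_sum hd)
  set s : ℝ := ∑ i, (d i : ℝ) with hsd
  have hs41 : 1 + s ≤ 41 * Y := by linarith [hs.2]
  have hs0 : 0 ≤ s := sum_nonneg fun i _ => Nat.cast_nonneg _
  set M : ℝ := C * 41 ^ C with hMd
  have hM0 : 0 ≤ M := by positivity
  set Si : Fin 10 → ∀ f : ℕ, DirichletCharacter ℂ f → Finset ℤ := fun i f χ =>
    (FK (Kc Y + 1)).filter (fun k => ‖PX χ (zY Y) (ty i) (d i) k‖ < Real.exp (-(ε * Y))) with hSi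
  have hone : ∀ i : Fin 10, ∑ f ∈ Icc 2 (Fc Y), ∑ χ ∈ prm f (fun _ => True), ∑ k ∈ Si i f χ,
      ‖∏ i, PX χ (zY Y) (ty i) (d i) k‖ ^ 2 ≤ 7 * M * Y ^ C * Real.exp (-(2 * ε * Y)) := by
    intro i
    have h1 := core hM (Fc Y) (Kc Y + 1) (zY Y) (Fc_pos hY0.le) (by omega) ty d i (Si i)
      (fun f χ => filter_subset _ _) (Real.exp (-(2 * ε * Y))) (Real.exp_pos _).le (by
        intro f _ χ _ k hk
        have h2 := (mem_filter.1 hk).2
        calc ‖PX χ (zY Y) (ty i) (d i) k‖ ^ 2 ≤ Real.exp (-(ε * Y)) ^ 2 :=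
              pow_le_pow_left₀ (norm_nonneg _) h2.le 2
          _ = Real.exp (-(2 * ε * Y)) := by
              rw [← Real.exp_nat_mul]
              congr 1
              push_cast
              ring)
    refine h1.trans ?_
    rw [← hsd]
    have h3 := rhs_le (a := (d i : ℝ) / 20) (s := s) (Fc_le Y) (Kc1_le hY0.le) (by linarith [hs.1])
    have e : (s - d i) / 20 = s / 20 - (d i : ℝ) / 20 := by ring
    rw [e]
    have h2 : (C : ℝ) * (1 + s) ^ C ≤ M * Y ^ C := by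
      rw [hMd, mul_assoc, ← mul_pow]
      apply mul_le_mul_of_nonneg_left _ (by positivity)
      exact pow_le_pow_left₀ (by positivity) hs41 C
    have h4 : Real.exp ((0.505 - 0.98) * Y + (d i : ℝ) / 20) ≤ 1 := by
      rw [Real.exp_le_one_iff]
      have := hcase i
      linarith
    have h5 : (C : ℝ) * (1 + s) ^ C * (1 + (Fc Y : ℝ) ^ 2 * ((Kc Y + 1 : ℕ) : ℝ) *
        Real.exp (-(s / 20 - (d i : ℝ) / 20))) ≤ M * Y ^ C * 7 :=
      mul_le_mul h2 (by linarith) (by positivity) (by positivity)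
    calc Real.exp (-(2 * ε * Y)) * ((C : ℝ) * (1 + s) ^ C * (1 + (Fc Y : ℝ) ^ 2 * ((Kc Y + 1 : ℕ) : ℝ) *
        Real.exp (-(s / 20 - (d i : ℝ) / 20)))) ≤ Real.exp (-(2 * ε * Y)) * (M * Y ^ C * 7) :=
          mul_le_mul_of_nonneg_left h5 (Real.exp_pos _).le
      _ = _ := by ring
  have hpt : ∀ (f : ℕ) (χ : DirichletCharacter ℂ f), ∑ k ∈ FK (Kc Y + 1),
      ‖(if NR ε Y d χ k then 0 else ∏ i, PX χ (zY Y) (ty i) (d i) k)‖ ^ 2 ≤
      ∑ i : Fin 10, ∑ k ∈ Si i f χ, ‖∏ i, PX χ (zY Y) (ty i) (d i) k‖ ^ 2 := by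
    intro f χ
    have h1 : ∑ i : Fin 10, ∑ k ∈ Si i f χ, ‖∏ i, PX χ (zY Y) (ty i) (d i) k‖ ^ 2 =
        ∑ k ∈ FK (Kc Y + 1), ∑ i : Fin 10, if ‖PX χ (zY Y) (ty i) (d i) k‖ < Real.exp (-(ε * Y)) then
          ‖∏ i, PX χ (zY Y) (ty i) (d i) k‖ ^ 2 else 0 := by
      rw [sum_comm]
      refine sum_congr rfl fun i _ => ?_
      rw [hSi]
      simp only [sum_filter]
    rw [h1]
    refine sum_le_sum fun k _ => ?_
    by_cases hN : NR ε Y d χ k
    · rw [if_pos hN, norm_zero]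
      have : ∀ i : Fin 10, (0 : ℝ) ≤ if ‖PX χ (zY Y) (ty i) (d i) k‖ < Real.exp (-(ε * Y)) then
          ‖∏ i, PX χ (zY Y) (ty i) (d i) k‖ ^ 2 else 0 := by
        intro i
        split_ifs <;> positivity
      calc (0 : ℝ) ^ 2 = 0 := by norm_num
        _ ≤ _ := sum_nonneg fun i _ => this i
    · rw [if_neg hN]
      unfold NR at hN
      push Not at hN
      obtain ⟨i, hi⟩ := hN hcase
      have h2 : ‖∏ i, PX χ (zY Y) (ty i) (d i) k‖ ^ 2 =
          if ‖PX χ (zY Y) (ty i) (d i) k‖ < Real.exp (-(ε * Y)) then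
          ‖∏ i, PX χ (zY Y) (ty i) (d i) k‖ ^ 2 else 0 := by rw [if_pos hi]
      refine h2.le.trans ?_
      refine single_le_sum (f := fun i : Fin 10 => if ‖PX χ (zY Y) (ty i) (d i) k‖ < Real.exp (-(ε * Y)) then
          ‖∏ i, PX χ (zY Y) (ty i) (d i) k‖ ^ 2 else 0) ?_ (mem_univ i)
      intro l _
      change (0 : ℝ) ≤ if ‖PX χ (zY Y) (ty l) (d l) k‖ < Real.exp (-(ε * Y)) then
          ‖∏ i, PX χ (zY Y) (ty i) (d i) k‖ ^ 2 else 0
      split_ifs <;> positivity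
  calc ∑ f ∈ Icc 2 (Fc Y), ∑ χ ∈ prm f (fun _ => True), ∑ k ∈ FK (Kc Y + 1),
      ‖(if NR ε Y d χ k then 0 else ∏ i, PX χ (zY Y) (ty i) (d i) k)‖ ^ 2
      ≤ ∑ f ∈ Icc 2 (Fc Y), ∑ χ ∈ prm f (fun _ => True), ∑ i : Fin 10, ∑ k ∈ Si i f χ,
        ‖∏ i, PX χ (zY Y) (ty i) (d i) k‖ ^ 2 :=
        sum_le_sum fun f _ => sum_le_sum fun χ _ => hpt f χ
    _ = ∑ i : Fin 10, ∑ f ∈ Icc 2 (Fc Y), ∑ χ ∈ prm f (fun _ => True), ∑ k ∈ Si i f χ,
        ‖∏ i, PX χ (zY Y) (ty i) (d i) k‖ ^ 2 := by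
        refine Eq.symm ?_
        refine sum_comm.trans (sum_congr rfl fun f _ => ?_)
        exact sum_comm
    _ ≤ ∑ _i : Fin 10, 7 * M * Y ^ C * Real.exp (-(2 * ε * Y)) := sum_le_sum fun i _ => hone i
    _ = 70 * M * Y ^ C * Real.exp (-(2 * ε * Y)) := by
        rw [sum_const, card_univ, Fintype.card_fin, nsmul_eq_mul]
        push_cast
        ring

/-- **FRX** -/
theorem s_FRX (hM : S_MSP) (hA : S_SMA) (hB : S_SMB) : S_FRX := by
  classical
  intro ε hε
  obtain ⟨C, hC1, hM⟩ := hM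
  obtain ⟨Ca, hCa, hA⟩ := hA
  obtain ⟨Cb, hCb, hB⟩ := hB
  set c : ℝ := min (2 * ε) 0.045 with hc
  have hc0 : 0 < c := lt_min (by linarith) (by norm_num)
  set M : ℝ := C * 41 ^ C with hMd
  have hM0 : 0 ≤ M := by positivity
  set D : ℝ := 7 * ((82 * Ca) ^ 2 + (3362 * Cb) ^ 2) * M + 70 * M with hD
  have hD0 : 0 ≤ D := by positivity
  obtain ⟨Y1, hY1⟩ := poly_exp (961 * 41 ^ 20 * D) (C + 24) (c := c / 2) (by positivity)
  refine ⟨c / 2, max Y1 10, by positivity, fun Y hY => ?_⟩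
  have hy1 := hY1 Y ((le_max_left _ _).trans hY)
  have hy10 : 10 ≤ Y := (le_max_right _ _).trans hY
  have hY0 : 0 < Y := by linarith
  have hYone : 1 ≤ Y := by linarith
  have hcard : ((DY Y).card : ℝ) ≤ (41 * Y) ^ 10 := by
    refine (Pool.Agent.Q95.KS.DY_card Y).trans (pow_le_pow_left₀ (Nat.cast_nonneg _) ?_ 10)
    push_cast
    have := Nat.floor_le (show 0 ≤ 20 * (Y + 1) by linarith)
    linarith
  have hd0 : ∀ d ∈ DY Y, ∑ f ∈ Icc 2 (Fc Y), ∑ χ ∈ prm f (fun _ => True), ∑ k ∈ FK (Kc Y + 1),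
      ‖(if NR ε Y d χ k then 0 else ∏ i, PX χ (zY Y) (ty i) (d i) k)‖ ^ 2 ≤
        D * Y ^ (C + 4) * Real.exp (-(c * Y)) := by
    intro d hd
    have hexp1 : Real.exp (-(0.045 * Y)) ≤ Real.exp (-(c * Y)) := by
      apply Real.exp_le_exp.mpr
      have : c * Y ≤ 0.045 * Y := mul_le_mul_of_nonneg_right (min_le_right _ _) hY0.le
      linarith
    have hexp2 : Real.exp (-(2 * ε * Y)) ≤ Real.exp (-(c * Y)) := by
      apply Real.exp_le_exp.mpr
      have : c * Y ≤ 2 * ε * Y := mul_le_mul_of_nonneg_right (min_le_left _ _) hY0.le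
      linarith
    by_cases hcase : ∀ i, (d i : ℝ) / 20 ≤ 0.45 * Y
    · have h1 := short hM Y ε hy10 d hd hcase
      refine h1.trans ?_
      rw [← hMd]
      have h2 := pow_le_pow_right₀ hYone (show C ≤ C + 4 by omega)
      calc 70 * M * Y ^ C * Real.exp (-(2 * ε * Y)) ≤ 70 * M * Y ^ (C + 4) * Real.exp (-(c * Y)) := by
            gcongr
        _ ≤ D * Y ^ (C + 4) * Real.exp (-(c * Y)) := by
            gcongr
            rw [hD]
            have : 0 ≤ 7 * ((82 * Ca) ^ 2 + (3362 * Cb) ^ 2) * M := by positivity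
            linarith
    · push Not at hcase
      obtain ⟨j, hj⟩ := hcase
      have h1 := long hM hCa hCb hA hB Y hy10 d hd j hj
      have h3 : ∑ f ∈ Icc 2 (Fc Y), ∑ χ ∈ prm f (fun _ => True), ∑ k ∈ FK (Kc Y + 1),
          ‖(if NR ε Y d χ k then 0 else ∏ i, PX χ (zY Y) (ty i) (d i) k)‖ ^ 2 ≤
          ∑ f ∈ Icc 2 (Fc Y), ∑ χ ∈ prm f (fun _ => True), ∑ k ∈ FK (Kc Y + 1),
          ‖∏ i, PX χ (zY Y) (ty i) (d i) k‖ ^ 2 := by
        refine sum_le_sum fun f _ => sum_le_sum fun χ _ => sum_le_sum fun k _ => ?_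
        split_ifs
        · rw [norm_zero, zero_pow two_ne_zero]
          positivity
        · exact le_refl _
      refine (h3.trans h1).trans ?_
      rw [← hMd]
      calc 7 * ((82 * Ca) ^ 2 + (3362 * Cb) ^ 2) * M * Y ^ (C + 4) * Real.exp (-(0.045 * Y)) ≤
            7 * ((82 * Ca) ^ 2 + (3362 * Cb) ^ 2) * M * Y ^ (C + 4) * Real.exp (-(c * Y)) := by gcongr
        _ ≤ D * Y ^ (C + 4) * Real.exp (-(c * Y)) := by
            gcongr
            rw [hD]
            linarith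
  have hpt : ∀ (f : ℕ) (χ : DirichletCharacter ℂ f) (k : ℤ), ‖AX χ Y k - AN χ ε Y k‖ ^ 2 ≤
      961 * (DY Y).card * ∑ d ∈ DY Y,
        ‖(if NR ε Y d χ k then 0 else ∏ i, PX χ (zY Y) (ty i) (d i) k)‖ ^ 2 := by
    intro f χ k
    have h0 : AX χ Y k - AN χ ε Y k = ∑ d ∈ DY Y, (ed d : ℂ) *
        (if NR ε Y d χ k then 0 else ∏ i, PX χ (zY Y) (ty i) (d i) k) := by
      unfold AX AN
      rw [← sum_sub_distrib]
      refine sum_congr rfl fun d _ => ?_
      split_ifs <;> ring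
    have h1 : ‖AX χ Y k - AN χ ε Y k‖ ≤ ∑ d ∈ DY Y, 31 *
        ‖(if NR ε Y d χ k then 0 else ∏ i, PX χ (zY Y) (ty i) (d i) k)‖ := by
      rw [h0]
      refine (norm_sum_le _ _).trans (sum_le_sum fun d _ => ?_)
      rw [norm_mul]
      apply mul_le_mul_of_nonneg_right _ (norm_nonneg _)
      have := Pool.Agent.Q95.KS.ed_bound d
      rw [Complex.norm_intCast]
      exact this
    calc ‖AX χ Y k - AN χ ε Y k‖ ^ 2 ≤ (∑ d ∈ DY Y, 31 *
        ‖(if NR ε Y d χ k then 0 else ∏ i, PX χ (zY Y) (ty i) (d i) k)‖) ^ 2 :=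
          pow_le_pow_left₀ (norm_nonneg _) h1 2
      _ ≤ (DY Y).card * ∑ d ∈ DY Y, (31 *
        ‖(if NR ε Y d χ k then 0 else ∏ i, PX χ (zY Y) (ty i) (d i) k)‖) ^ 2 :=
          sq_sum_le_card_mul_sum_sq
      _ = 961 * (DY Y).card * ∑ d ∈ DY Y,
        ‖(if NR ε Y d χ k then 0 else ∏ i, PX χ (zY Y) (ty i) (d i) k)‖ ^ 2 := by
          simp only [mul_pow, ← mul_sum]
          ring
  calc ∑ f ∈ Icc 2 (Fc Y), ∑ χ ∈ prm f (fun _ => True), ∑ k ∈ FK (Kc Y + 1), ‖AX χ Y k - AN χ ε Y k‖ ^ 2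
      ≤ ∑ f ∈ Icc 2 (Fc Y), ∑ χ ∈ prm f (fun _ => True), ∑ k ∈ FK (Kc Y + 1),
        961 * (DY Y).card * ∑ d ∈ DY Y,
          ‖(if NR ε Y d χ k then 0 else ∏ i, PX χ (zY Y) (ty i) (d i) k)‖ ^ 2 :=
        sum_le_sum fun f _ => sum_le_sum fun χ _ => sum_le_sum fun k _ => hpt f χ k
    _ = 961 * (DY Y).card * ∑ d ∈ DY Y, ∑ f ∈ Icc 2 (Fc Y), ∑ χ ∈ prm f (fun _ => True),
        ∑ k ∈ FK (Kc Y + 1), ‖(if NR ε Y d χ k then 0 else ∏ i, PX χ (zY Y) (ty i) (d i) k)‖ ^ 2 := by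
        simp only [← mul_sum]
        congr 1
        refine Eq.symm ?_
        refine sum_comm.trans (sum_congr rfl fun f _ => ?_)
        refine sum_comm.trans (sum_congr rfl fun χ _ => ?_)
        exact sum_comm
    _ ≤ 961 * (DY Y).card * ∑ d ∈ DY Y, D * Y ^ (C + 4) * Real.exp (-(c * Y)) := by
        apply mul_le_mul_of_nonneg_left _ (by positivity)
        exact sum_le_sum fun d hd => hd0 d hd
    _ = 961 * (DY Y).card ^ 2 * (D * Y ^ (C + 4) * Real.exp (-(c * Y))) := by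
        rw [sum_const, nsmul_eq_mul]
        ring
    _ ≤ 961 * ((41 * Y) ^ 10) ^ 2 * (D * Y ^ (C + 4) * Real.exp (-(c * Y))) := by
        apply mul_le_mul_of_nonneg_right _ (by positivity)
        apply mul_le_mul_of_nonneg_left _ (by norm_num)
        exact pow_le_pow_left₀ (Nat.cast_nonneg _) hcard 2
    _ = (961 * 41 ^ 20 * D * Y ^ (C + 24)) * Real.exp (-(c * Y)) := by
        rw [show C + 24 = C + 4 + 20 by omega, pow_add Y (C + 4) 20]
        ring
    _ ≤ Real.exp (c / 2 * Y) * Real.exp (-(c * Y)) :=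
        mul_le_mul_of_nonneg_right hy1 (Real.exp_pos _).le
    _ = Real.exp (-(c / 2 * Y)) := by
        rw [← Real.exp_add]
        congr 1
        ring

end Pool.Agent.L7h76.BP
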